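import Pool.Agent.LE.StmtsM
import Pool.Agent.Helper54_LEW.VTR
import Pool.Agent.Helper54_LE.APG2

/-!
# LYM, rows VTZ and UPZ: one site inequalities at a complex energy
-/

set_option autoImplicit false
set_option linter.unusedSectionVars false

open scoped Topology ENNReal BigOperators NNReal
open MeasureTheory Filter ProbabilityTheory

noncomputable section

namespace Pool.Agent.LE.MN.H28

open Pool.Agent.Anderson hiding box mem_box card_box
open Pool.Agent.Loc Pool.Agent.Mob Pool.Agent.Helper54.Bal Pool.Agent.LY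
  Pool.Agent.LE.H54 Pool.Agent.LE.H54W

variable {d : ℕ}

theorem gmz_nonneg (V : Site d → ℝ) (Λ : Finset (Site d)) (z : ℂ) (S : Finset (Site d))
    (x : Site d) : 0 ≤ gmz V Λ z S x := NNReal.coe_nonneg _

theorem le_gmz (V : Site d → ℝ) (Λ : Finset (Site d)) (z : ℂ) {S : Finset (Site d)} {w : Site d}
    (hw : w ∈ S) (x : Site d) : ‖gz V Λ z w x‖ ≤ gmz V Λ z S x := by
  have h : ‖gz V Λ z w x‖₊ ≤ S.sup fun w => ‖gz V Λ z w x‖₊ :=
    Finset.le_sup (f := fun w => ‖gz V Λ z w x‖₊) hw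
  have h2 : (‖gz V Λ z w x‖₊ : ℝ) ≤ ((S.sup fun w => ‖gz V Λ z w x‖₊ : NNReal) : ℝ) := by
    exact_mod_cast h
  exact h2

theorem exists_gmz (V : Site d → ℝ) (Λ : Finset (Site d)) (z : ℂ) {S : Finset (Site d)}
    {x : Site d} (h : 0 < gmz V Λ z S x) : ∃ w ∈ S, gmz V Λ z S x = ‖gz V Λ z w x‖ := by
  have hne : S.Nonempty := by
    rw [Finset.nonempty_iff_ne_empty]
    rintro rfl
    simp [gmz] at h
  obtain ⟨w, hw, hw2⟩ := S.exists_max_image (fun w => ‖gz V Λ z w x‖₊) hne
  refine ⟨w, hw, le_antisymm ?_ (le_gmz V Λ z hw x)⟩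
  have h1 : (S.sup fun w => ‖gz V Λ z w x‖₊) ≤ ‖gz V Λ z w x‖₊ := Finset.sup_le hw2
  have h2 : ((S.sup fun w => ‖gz V Λ z w x‖₊ : NNReal) : ℝ) ≤ (‖gz V Λ z w x‖₊ : ℝ) := by
    exact_mod_cast h1
  exact h2

theorem norm_KB (Λ : Finset (Site d)) (z : ℂ) (V : Site d → ℝ) (x y : Λ) :
    ‖KB Λ z V x y‖ = ‖gz V Λ z x y‖ := by
  rw [KB_eq_gz, norm_neg]

/-- VTZ -/
theorem vtz : VtzStmt := by
  classical
  intro d σ τ z Λ S u y hσ hτ hz
  have hν := bddDens_gl hσ
  by_cases hmem : u ∈ Λ ∧ y ∈ Λ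
  swap
  · have : {V : Site d → ℝ | τ * gmz V Λ z S y < gmz V Λ z S u * ‖gz V Λ z u y‖} = ∅ := by
      ext V
      simp only [Set.mem_ofPred_eq, Set.mem_empty_iff_false, iff_false, not_lt]
      have h0 : gz V Λ z u y = 0 := by
        unfold gz
        rw [dif_neg hmem]
      rw [h0, norm_zero, mul_zero]
      exact mul_nonneg hτ.le (gmz_nonneg _ _ _ _ _)
    rw [this, measure_empty]
    exact zero_le
  obtain ⟨hu, hy⟩ := hmem
  set S' : Finset Λ := Finset.univ.filter fun w : Λ => (w : Site d) ∈ S with hS'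
  have hsub : {V : Site d → ℝ | τ * gmz V Λ z S y < gmz V Λ z S u * ‖gz V Λ z u y‖} ⊆
      Ev Λ z S' ⟨u, hu⟩ ⟨y, hy⟩ τ := by
    intro V hV
    rw [Set.mem_ofPred_eq] at hV
    have hpos : 0 < gmz V Λ z S u := by
      by_contra hcon
      have h1 : gmz V Λ z S u = 0 := le_antisymm (not_lt.1 hcon) (gmz_nonneg _ _ _ _ _)
      rw [h1, zero_mul] at hV
      exact absurd hV (not_lt.2 (mul_nonneg hτ.le (gmz_nonneg _ _ _ _ _)))
    obtain ⟨w, hw, hw2⟩ := exists_gmz V Λ z hpos
    have hwΛ : w ∈ Λ := by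
      by_contra hcon
      have h0 : gz V Λ z w u = 0 := by
        unfold gz
        rw [dif_neg fun h => hcon h.1]
      rw [h0, norm_zero] at hw2
      linarith
    refine ⟨⟨w, hwΛ⟩, by simp [hS', hw], fun x hx => ?_⟩
    have hxS : (x : Site d) ∈ S := (Finset.mem_filter.1 hx).2
    rw [norm_KB, norm_KB, norm_KB]
    calc τ * ‖gz V Λ z x y‖ ≤ τ * gmz V Λ z S y :=
          mul_le_mul_of_nonneg_left (le_gmz V Λ z hxS y) hτ.le
      _ < gmz V Λ z S u * ‖gz V Λ z u y‖ := hV
      _ = _ := by rw [hw2]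
  have hm := meas_Ev Λ z S' ⟨u, hu⟩ ⟨y, hy⟩ τ
  refine (measure_mono hsub).trans ?_
  rw [← lintegral_indicator_one hm]
  refine (PP_le_of_marg {u} (measurable_one.indicator hm)
    (ev_marg hν Λ hz S' ⟨u, hu⟩ ⟨y, hy⟩ hτ)).trans (le_of_eq ?_)
  congr 1
  ring

section prob

variable {ν : Measure ℝ} [IsProbabilityMeasure ν] {ρ : ℝ}

/-- the diagonal elements -/
theorem diagB (hν : BddDens ν ρ) (Λ : Finset (Site d)) {z : ℂ} (hz : 0 < z.im) (x : Λ) {τ : ℝ}
    (hτ : 0 < τ) : PP d ν {V | τ < ‖KB Λ z V x x‖} ≤ ENNReal.ofReal (2 * ρ / τ) := by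
  have hρ := hν.1
  have hm : MeasurableSet {V : Site d → ℝ | τ < ‖KB Λ z V x x‖} :=
    measurableSet_lt measurable_const (measurable_KB Λ z x x).norm
  rw [← lintegral_indicator_one hm]
  refine PP_le_of_marg {(x : Site d)} (measurable_one.indicator hm) fun V => ?_
  have hf := fam_KB Λ hz
  rw [lmarginal_singleton]
  set V' := Function.update V (x : Site d) 0 with hV'
  have hk := hf.ker V'
  have hupd : ∀ v : ℝ, KB Λ z (Function.update V (x : Site d) v) = upk x (v : ℂ) (KB Λ z V') := by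
    intro v
    have e := hf.upd V' x v
    rw [hV', Function.update_idem, Function.update_self, Complex.ofReal_zero, sub_zero] at e
    exact e
  set K := KB Λ z V' with hK
  set a : ℂ := -1 / K x x with ha
  have hne := hk.ne_zero x
  have hsub : {v : ℝ | τ < ‖upk x (v : ℂ) K x x‖} ⊆ Set.Icc (a.re - 1 / τ) (a.re + 1 / τ) := by
    intro v hv
    rw [Set.mem_ofPred_eq] at hv
    have hD := hk.den_ne (w := (v : ℂ)) (by simp) x
    rw [upk_eq hD] at hv
    have e1 : (K x x + v * (K x x * K x x - K x x * K x x)) / (1 + v * K x x) =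
        ((v : ℂ) - a)⁻¹ := by
      have e2 : (v : ℂ) - a = (1 + v * K x x) / K x x := by
        rw [ha]
        field_simp
        ring
      rw [e2, inv_div]
      congr 1
      ring
    rw [e1, norm_inv] at hv
    have h3 : 0 < ‖(v : ℂ) - a‖ := by
      by_contra hcon
      have h4 : ‖(v : ℂ) - a‖ = 0 := le_antisymm (not_lt.1 hcon) (norm_nonneg _)
      rw [h4, inv_zero] at hv
      linarith
    have h5 : ‖(v : ℂ) - a‖ < 1 / τ := by
      rw [lt_div_iff₀ hτ]
      rw [← one_div, lt_div_iff₀ h3] at hv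
      linarith
    have h7 : |v - a.re| ≤ ‖(v : ℂ) - a‖ := by
      have := Complex.abs_re_le_norm ((v : ℂ) - a)
      simpa using this
    have h8 := abs_le.1 (h7.trans h5.le)
    constructor <;> linarith
  have hms : MeasurableSet {v : ℝ | τ < ‖upk x (v : ℂ) K x x‖} := by
    have hmu : Measurable fun v : ℝ => Function.update V (x : Site d) v := measurable_update V
    have := hmu hm
    refine (MeasurableSet.congr this ?_)
    ext v
    simp only [Set.mem_preimage, Set.mem_ofPred_eq, hupd]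
  calc ∫⁻ v, ({V : Site d → ℝ | τ < ‖KB Λ z V x x‖}.indicator 1 : (Site d → ℝ) → ℝ≥0∞)
        (Function.update V (x : Site d) v) ∂ν
      = ν {v : ℝ | τ < ‖upk x (v : ℂ) K x x‖} := by
        rw [← lintegral_indicator_one hms]
        refine lintegral_congr fun v => ?_
        by_cases hv : τ < ‖upk x (v : ℂ) K x x‖
        · rw [Set.indicator_of_mem (by simpa only [Set.mem_ofPred_eq, hupd] using hv),
            Set.indicator_of_mem (by simpa only [Set.mem_ofPred_eq] using hv)]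
          rfl
        · rw [Set.indicator_of_notMem (by simpa only [Set.mem_ofPred_eq, hupd] using hv),
            Set.indicator_of_notMem (by simpa only [Set.mem_ofPred_eq] using hv)]
    _ ≤ ν (Set.Icc (a.re - 1 / τ) (a.re + 1 / τ)) := measure_mono hsub
    _ ≤ ENNReal.ofReal (ρ * ((a.re + 1 / τ) - (a.re - 1 / τ))) := hν.2 _ _
    _ = _ := by
        congr 1
        field_simp
        ring

end prob

/-- UPZ -/
theorem upz : UpzStmt := by
  intro d σ τ z Λ x y hσ hτ hz
  have hν := bddDens_gl hσ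
  by_cases hmem : x ∈ Λ ∧ y ∈ Λ
  swap
  · have : {V : Site d → ℝ | τ < ‖gz V Λ z x y‖} = ∅ := by
      ext V
      simp only [Set.mem_ofPred_eq, Set.mem_empty_iff_false, iff_false, not_lt]
      have h0 : gz V Λ z x y = 0 := by
        unfold gz
        rw [dif_neg hmem]
      rw [h0, norm_zero]
      exact hτ.le
    rw [this, measure_empty]
    exact zero_le
  obtain ⟨hx, hy⟩ := hmem
  set x' : Λ := ⟨x, hx⟩ with hx'
  set y' : Λ := ⟨y, hy⟩ with hy'
  have hsub : {V : Site d → ℝ | τ < ‖gz V Λ z x y‖} ⊆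
      {V | τ * ‖KB Λ z V x' x'‖ < ‖KB Λ z V x' y'‖ * ‖KB Λ z V y' x'‖} ∪
        {V | τ < ‖KB Λ z V x' x'‖} := by
    intro V hV
    rw [Set.mem_ofPred_eq] at hV
    have hV2 : τ < ‖KB Λ z V x' y'‖ := by rwa [norm_KB]
    by_cases h : τ < ‖KB Λ z V x' x'‖
    · exact Or.inr h
    · left
      rw [Set.mem_ofPred_eq, KB_symm Λ z V y' x']
      push Not at h
      nlinarith
  have hm : MeasurableSet {V : Site d → ℝ | τ * ‖KB Λ z V x' x'‖ <
      ‖KB Λ z V x' y'‖ * ‖KB Λ z V y' x'‖} :=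
    measurableSet_lt ((measurable_KB Λ z x' x').norm.const_mul _)
      ((measurable_KB Λ z x' y').norm.mul (measurable_KB Λ z y' x').norm)
  have h1 : PP d (gl σ) {V | τ * ‖KB Λ z V x' x'‖ < ‖KB Λ z V x' y'‖ * ‖KB Λ z V y' x'‖} ≤
      ENNReal.ofReal (8 * (1 / |σ|) / τ) := by
    rw [← lintegral_indicator_one hm]
    exact PP_le_of_marg {(y' : Site d)} (measurable_one.indicator hm)
      (one_marg hν Λ hz y' x' x' hτ)
  refine (measure_mono hsub).trans ((measure_union_le _ _).trans ?_)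
  calc _ ≤ ENNReal.ofReal (8 * (1 / |σ|) / τ) + ENNReal.ofReal (2 * (1 / |σ|) / τ) :=
        add_le_add h1 (diagB hν Λ hz x' hτ)
    _ = _ := by
        rw [← ENNReal.ofReal_add (by positivity) (by positivity)]
        congr 1
        ring

end Pool.Agent.LE.MN.H28
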